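import Mathlib
import Pool.Agent.H48.Mono

set_option autoImplicit false

namespace Pool.Agent.Results.MP_b164a8_nt.Answer

open Polynomial

/-- The Fibonacci polynomials `F 0 = 0`, `F 1 = 1`, `F (n + 2) = X * F (n + 1) + F n` in `ℤ[X]`. -/
noncomputable def fibPoly : ℕ → ℤ[X]
  | 0 => 0
  | 1 => 1
  | n + 2 => X * fibPoly (n + 1) + fibPoly n

/-- `f` is monogenic: for each complex root `θ` of `f`, the ring `ℤ[θ]` is the set of algebraic
integers of the field `ℚ(θ)`. -/
def IsMonogenic (f : ℤ[X]) : Prop :=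
  ∀ θ : ℂ, aeval θ f = 0 →
    ∀ x : ℂ, x ∈ Algebra.adjoin ℤ {θ} ↔ (x ∈ IntermediateField.adjoin ℚ {θ} ∧ IsIntegral ℤ x)

lemma eval_fib (y : ℂ) (hy : y ≠ 0) (n : ℕ) :
    (y + y⁻¹) * aeval (y - y⁻¹) (fibPoly n) = y ^ n - (-y⁻¹) ^ n := by
  have h1 : y * y⁻¹ = 1 := mul_inv_cancel₀ hy
  have key : ∀ n : ℕ, (y + y⁻¹) * aeval (y - y⁻¹) (fibPoly n) = y ^ n - (-y⁻¹) ^ n ∧
      (y + y⁻¹) * aeval (y - y⁻¹) (fibPoly (n + 1)) = y ^ (n + 1) - (-y⁻¹) ^ (n + 1) := by
    intro n
    induction n with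
    | zero =>
      constructor
      · simp [fibPoly]
      · simp [fibPoly]
    | succ n ih =>
      refine ⟨ih.2, ?_⟩
      rw [fibPoly, map_add, map_mul, aeval_X]
      obtain ⟨i1, i2⟩ := ih
      generalize y⁻¹ = z at h1 i1 i2 ⊢
      linear_combination (y - z) * i2 + i1 + (-y ^ n + (-z) ^ n) * h1
  exact (key n).1

lemma eval_fib_two (y : ℂ) (hy : y ^ 2 = -1) (n : ℕ) :
    y * aeval (2 * y) (fibPoly n) = n * y ^ n := by
  have key : ∀ n : ℕ, y * aeval (2 * y) (fibPoly n) = n * y ^ n ∧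
      y * aeval (2 * y) (fibPoly (n + 1)) = (n + 1 : ℕ) * y ^ (n + 1) := by
    intro n
    induction n with
    | zero =>
      constructor
      · simp [fibPoly]
      · simp [fibPoly]
    | succ n ih =>
      refine ⟨ih.2, ?_⟩
      rw [fibPoly, map_add, map_mul, aeval_X]
      obtain ⟨i1, i2⟩ := ih
      push_cast at i1 i2 ⊢
      linear_combination (2 * y) * i2 + i1 + n * y ^ n * hy
  exact (key n).1

/-- For even `n ≥ 2`, all monic irreducible factors of `F n` are monogenic if and only if `n` is a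
power of `2`. -/
theorem result (n : ℕ) (hn : Even n) (hn2 : 2 ≤ n) :
    (∀ f : ℤ[X], f.Monic → Irreducible (f.map (Int.castRingHom ℚ)) → f ∣ fibPoly n →
      IsMonogenic f) ↔ ∃ k : ℕ, n = 2 ^ k := by
  constructor
  · intro H
    obtain ⟨k, d, hd, hnd⟩ := Nat.exists_eq_two_pow_mul_odd (n := n) (by omega)
    by_contra h1
    have hd1 : d ≠ 1 := by
      rintro rfl
      exact h1 ⟨k, by simpa using hnd⟩
    have hd0 : 0 < d := hd.pos
    have hp := Complex.isPrimitiveRoot_exp d hd0.ne'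
    set ζ := Complex.exp (2 * Real.pi * Complex.I / d) with hζ
    have hζ1 : ζ ≠ 1 := hp.ne_one (by omega)
    have hζd : ζ ^ d = 1 := hp.pow_eq_one
    have hζn : ζ ^ n = 1 := by rw [hnd, mul_comm, pow_mul, hζd, one_pow]
    have hζ0 : ζ ≠ 0 := hp.ne_zero hd0.ne'
    have hint : IsIntegral ℤ (ζ - ζ⁻¹) :=
      (H48.Mono.int_of_pow hd0 hζd).sub (H48.Mono.int_inv_of_pow hd0 hζd)
    obtain ⟨m1, m2, m3⟩ := H48.Mono.minpoly_facts hint
    have hne : ζ + ζ⁻¹ ≠ 0 := by
      intro h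
      have h2 : ζ ^ 2 = -1 := by
        have h4 : ζ * ζ⁻¹ = 1 := mul_inv_cancel₀ hζ0
        linear_combination ζ * h - h4
      have h3 : (ζ ^ 2) ^ d = 1 := by rw [← pow_mul, mul_comm, pow_mul, hζd, one_pow]
      rw [h2, hd.neg_one_pow] at h3
      norm_num at h3
    have hroot : aeval (ζ - ζ⁻¹) (fibPoly n) = 0 := by
      have := eval_fib ζ hζ0 n
      rw [hn.neg_pow, inv_pow, hζn, inv_one, sub_self] at this
      exact (mul_eq_zero.mp this).resolve_left hne
    have hm := H _ m1 m2 (minpoly.isIntegrallyClosed_dvd hint hroot) _ m3 ζ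
    obtain ⟨a1, a2, a3⟩ := H48.Mono.nonmono hd hζd hζ1
    exact a3 (hm.mpr ⟨a1, a2⟩)
  · rintro ⟨k, hk⟩ f _ _ hf θ hθ x
    have hroot : aeval θ (fibPoly n) = 0 := aeval_eq_zero_of_dvd_aeval_eq_zero hf hθ
    obtain ⟨r, hr⟩ := IsAlgClosed.exists_pow_nat_eq (θ ^ 2 + 4) (n := 2) (by norm_num)
    set η := (θ + r) / 2 with hη
    have hq : η * (η - θ) = 1 := by rw [hη]; linear_combination hr / 4
    have hη0 : η ≠ 0 := by
      intro h
      rw [h, zero_mul] at hq
      exact zero_ne_one hq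
    have hθη : θ = η - η⁻¹ := by
      rw [← eq_inv_of_mul_eq_one_right hq]; ring
    have h4 : η * η⁻¹ = 1 := mul_inv_cancel₀ hη0
    have hn0 : 0 < n := by omega
    have hpow : η ^ (2 * n) = 1 := by
      have := eval_fib η hη0 n
      rw [← hθη, hroot, mul_zero, hn.neg_pow, inv_pow] at this
      have h5 : η ^ n * (η ^ n)⁻¹ = 1 := mul_inv_cancel₀ (pow_ne_zero n hη0)
      rw [two_mul, pow_add]
      linear_combination -η ^ n * this + h5
    have hsq : η ^ 2 ≠ -1 := by
      intro h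
      have h5 : θ = 2 * η := by
        rw [hθη]
        linear_combination -η⁻¹ * h + η * h4
      have := eval_fib_two η h n
      rw [← h5, hroot, mul_zero] at this
      exact mul_ne_zero (Nat.cast_ne_zero.mpr hn0.ne') (pow_ne_zero n hη0) this.symm
    have hint : IsIntegral ℤ θ := by
      rw [hθη]
      exact (H48.Mono.int_of_pow (by omega) hpow).sub (H48.Mono.int_inv_of_pow (by omega) hpow)
    refine ⟨H48.Mono.easy hint, fun h => ?_⟩
    by_cases h2 : η ^ 2 = 1
    · have h0 : θ = 0 := by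
        rw [hθη]
        linear_combination η⁻¹ * h2 - η * h4
      rw [h0] at h ⊢
      exact H48.Mono.mono_zero h.1 h.2
    · have hex : ∃ j : ℕ, η ^ 2 ^ j = 1 := ⟨k + 1, by rw [pow_succ', ← hk]; exact hpow⟩
      classical
      have hj := Nat.find_spec hex
      have hj0 : Nat.find hex ≠ 0 := by
        intro h0
        rw [h0, pow_zero, pow_one] at hj
        apply h2
        rw [hj, one_pow]
      have hj1 : Nat.find hex ≠ 1 := by
        intro h0
        rw [h0, pow_one] at hj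
        exact h2 hj
      obtain ⟨m, hm⟩ : ∃ m, Nat.find hex = m + 2 := ⟨Nat.find hex - 2, by omega⟩
      have hlt := Nat.find_min hex (m := m + 1) (by omega)
      rw [hm] at hj
      rw [hθη] at h ⊢
      exact H48.Mono.mono_pow hj hlt hsq h.1 h.2

end Pool.Agent.Results.MP_b164a8_nt.Answer
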